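import Pool.Agent.Helper77.SND.Stmts

/-!
GL4: gluing a long sender along two disjoint edges.
-/

set_option autoImplicit false

namespace Pool.Agent.Helper77.SND

open Classical in
/-- the attaching map -/
noncomputable def gl4_tau {V W : Type} (u v u0 v0 : V) (a b p q : W) (w : W) : Option V :=
  if w = a then some u else if w = b then some v else if w = p then some u0
  else if w = q then some v0 else none

theorem gl4_tau_some {V W : Type} {u v u0 v0 : V} {a b p q : W} {w : W} {x : V}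
    (h : gl4_tau u v u0 v0 a b p q w = some x) :
    (w = a ∧ x = u) ∨ (w = b ∧ x = v) ∨ (w = p ∧ x = u0) ∨ (w = q ∧ x = v0) := by
  unfold gl4_tau at h
  split_ifs at h with h1 h2 h3 h4
  · exact Or.inl ⟨h1, (Option.some.inj h).symm⟩
  · exact Or.inr (Or.inl ⟨h2, (Option.some.inj h).symm⟩)
  · exact Or.inr (Or.inr (Or.inl ⟨h3, (Option.some.inj h).symm⟩))
  · exact Or.inr (Or.inr (Or.inr ⟨h4, (Option.some.inj h).symm⟩))

theorem gl4_sep {m : ℕ} {H : SimpleGraph (Fin m)} (hC : C3 H) {V' : Type} {f : Fin m → V'}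
    (hf : Function.Injective f) (z1 z2 : V') (P : Fin m → Prop) (hP : ∃ x, P x)
    (hP1 : ∀ x, P x → f x ≠ z1 ∧ f x ≠ z2)
    (hadj : ∀ x y, P x → H.Adj x y → f y ≠ z1 → f y ≠ z2 → P y) :
    ∀ y, f y = z1 ∨ f y = z2 ∨ P y := by
  classical
  by_contra hc
  push Not at hc
  obtain ⟨y0, h1, h2, h3⟩ := hc
  obtain ⟨x0, hx0⟩ := hP
  have hch : ∀ z : V', ∃ p : Fin m, ∀ x, f x = z → x = p := by
    intro z
    by_cases hz : ∃ x, f x = z
    · obtain ⟨x, hx⟩ := hz
      exact ⟨x, fun y hy => hf (hy.trans hx.symm)⟩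
    · exact ⟨x0, fun y hy => absurd ⟨y, hy⟩ hz⟩
  obtain ⟨p, hp⟩ := hch z1
  obtain ⟨q, hq⟩ := hch z2
  obtain ⟨x, y, hx, hy, hxy⟩ := hC.2
    (fun x => if f x = z1 ∨ f x = z2 then none else if P x then some true else some false)
    p q (by
      intro x hx
      have hx' : f x = z1 ∨ f x = z2 := by
        by_contra hn
        change (if f x = z1 ∨ f x = z2 then (none : Option Bool) else
          if P x then some true else some false) = none at hx
        rw [if_neg hn] at hx
        split_ifs at hx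
      rcases hx' with h | h
      · exact Or.inl (hp x h)
      · exact Or.inr (hq x h))
    ⟨x0, by
      change (if f x0 = z1 ∨ f x0 = z2 then (none : Option Bool) else
          if P x0 then some true else some false) = some true
      rw [if_neg (fun h => h.elim (hP1 x0 hx0).1 (hP1 x0 hx0).2), if_pos hx0]⟩
    ⟨y0, by
      change (if f y0 = z1 ∨ f y0 = z2 then (none : Option Bool) else
          if P y0 then some true else some false) = some false
      rw [if_neg (fun h => h.elim h1 h2), if_neg h3]⟩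
  change (if f x = z1 ∨ f x = z2 then (none : Option Bool) else
          if P x then some true else some false) = some true at hx
  change (if f y = z1 ∨ f y = z2 then (none : Option Bool) else
          if P y then some true else some false) = some false at hy
  have hPx : P x := by
    by_contra hn
    split_ifs at hx
    exact absurd hx (by simp)
  have hy' : (f y ≠ z1 ∧ f y ≠ z2) ∧ ¬ P y := by
    by_cases h : f y = z1 ∨ f y = z2
    · rw [if_pos h] at hy
      exact absurd hy (by simp)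
    · rw [if_neg h] at hy
      refine ⟨⟨fun h' => h (Or.inl h'), fun h' => h (Or.inr h')⟩, fun hPy => ?_⟩
      rw [if_pos hPy] at hy
      exact absurd hy (by simp)
  exact hy'.2 (hadj x y hPx hxy hy'.1.1 hy'.1.2)

theorem gl4_copy {m : ℕ} {H : SimpleGraph (Fin m)} {V W V' : Type} {S : SimpleGraph W}
    {G' : SimpleGraph V'} {j : W → V'} {τ : W → Option V} (hj : Function.Injective j)
    (h7 : ∀ w z, τ w = none → G'.Adj (j w) z → ∃ w', z = j w' ∧ S.Adj w w')
    {f : Fin m → V'} (hf : Copy H G' f) {a b : W} (hab : S.Adj a b) (g : Fin m → W)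
    (hg : ∀ y, f y = j (g y)) (hg' : ∀ y, τ (g y) = none ∨ g y = a ∨ g y = b) :
    Copy H S g := by
  refine ⟨fun x y hxy => hf.1 (by rw [hg, hg, hxy]), fun x y hxy => ?_⟩
  have h := hf.2 x y hxy
  have hne : g x ≠ g y := fun h' => h.ne (by rw [hg, hg, h'])
  rw [hg, hg] at h
  rcases hg' x with hx | hx
  · obtain ⟨w', hw', hs⟩ := h7 _ _ hx h
    rwa [← hj hw'] at hs
  · rcases hg' y with hy | hy
    · obtain ⟨w', hw', hs⟩ := h7 _ _ hy h.symm
      rw [← hj hw'] at hs
      exact hs.symm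
    · rcases hx with hx | hx <;> rcases hy with hy | hy
      · exact absurd (hx.trans hy.symm) hne
      · rw [hx, hy]; exact hab
      · rw [hx, hy]; exact hab.symm
      · exact absurd (hx.trans hy.symm) hne

theorem gl4_level {m : ℕ} {W V' : Type} {j : W → V'} (hj : Function.Injective j) (φ : W → ℕ)
    (f : Fin m → V') : ∃ h, 1 ≤ h ∧ h ≤ m + 1 ∧ ∀ x w, f x = j w → φ w ≠ h := by
  classical
  have hcard : ((Finset.univ : Finset (Fin m)).image (fun x =>
      if hx : ∃ w, f x = j w then φ (Classical.choose hx) else 0)).card <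
      (Finset.Icc 1 (m + 1)).card := by
    refine lt_of_le_of_lt Finset.card_image_le ?_
    rw [Finset.card_univ, Fintype.card_fin, Nat.card_Icc]
    omega
  obtain ⟨h, hh, hn⟩ := Finset.exists_mem_notMem_of_card_lt_card hcard
  rw [Finset.mem_Icc] at hh
  refine ⟨h, hh.1, hh.2, fun x w hx hw => hn ?_⟩
  rw [Finset.mem_image]
  refine ⟨x, Finset.mem_univ x, ?_⟩
  have hex : ∃ w, f x = j w := ⟨w, hx⟩
  rw [dif_pos hex, ← hw]
  congr 1
  exact hj ((Classical.choose_spec hex).symm.trans hx)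

theorem gl4_pb {m : ℕ} {H : SimpleGraph (Fin m)} {V V' : Type} {G : SimpleGraph V}
    {G' : SimpleGraph V'} {i : V → V'} (hi : Function.Injective i)
    (hadj : ∀ x y, G.Adj x y → G'.Adj (i x) (i y)) {e : Sym2 V' → Bool} (he : Good H G' e) :
    Good H G (pb e i) := by
  intro b f hf
  obtain ⟨x, y, hxy, hne⟩ := he b (fun z => i (f z))
    ⟨fun x y hxy => hf.1 (hi hxy), fun x y hxy => hadj _ _ (hf.2 x y hxy)⟩
  exact ⟨x, y, hxy, hne⟩

theorem st_GL4 (hGLUE : ST_GLUE) : ST_GL4 := by
  intro m H hC V W _ _ G S u v u0 v0 a b p q φ huv huv0 h1 h2 h3 h4 hab hpq ha hb hp hq hφ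
  have hsw : ∀ w w' x x', gl4_tau u v u0 v0 a b p q w = some x →
      gl4_tau u v u0 v0 a b p q w' = some x' → S.Adj w w' →
      (w = a ∧ x = u ∧ w' = b ∧ x' = v) ∨ (w = b ∧ x = v ∧ w' = a ∧ x' = u) ∨
      (w = p ∧ x = u0 ∧ w' = q ∧ x' = v0) ∨ (w = q ∧ x = v0 ∧ w' = p ∧ x' = u0) := by
    intro w w' x x' hw hw' hadj
    have e1 := hφ _ _ hadj
    have e2 := hφ _ _ hadj.symm
    rcases gl4_tau_some hw with ⟨hw1, hx1⟩ | ⟨hw1, hx1⟩ | ⟨hw1, hx1⟩ | ⟨hw1, hx1⟩ <;>
    rcases gl4_tau_some hw' with ⟨hw2, hx2⟩ | ⟨hw2, hx2⟩ | ⟨hw2, hx2⟩ | ⟨hw2, hx2⟩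
    · exact absurd (hw1.trans hw2.symm) hadj.ne
    · exact Or.inl ⟨hw1, hx1, hw2, hx2⟩
    · rw [hw1, hw2] at e2; omega
    · rw [hw1, hw2] at e2; omega
    · exact Or.inr (Or.inl ⟨hw1, hx1, hw2, hx2⟩)
    · exact absurd (hw1.trans hw2.symm) hadj.ne
    · rw [hw1, hw2] at e2; omega
    · rw [hw1, hw2] at e2; omega
    · rw [hw1, hw2] at e1; omega
    · rw [hw1, hw2] at e1; omega
    · exact absurd (hw1.trans hw2.symm) hadj.ne
    · exact Or.inr (Or.inr (Or.inl ⟨hw1, hx1, hw2, hx2⟩))
    · rw [hw1, hw2] at e1; omega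
    · rw [hw1, hw2] at e1; omega
    · exact Or.inr (Or.inr (Or.inr ⟨hw1, hx1, hw2, hx2⟩))
    · exact absurd (hw1.trans hw2.symm) hadj.ne
  have hab' : a ≠ b := hab.ne
  have hpq' : p ≠ q := hpq.ne
  have hap : a ≠ p := fun h => by rw [h] at ha; omega
  have haq : a ≠ q := fun h => by rw [h] at ha; omega
  have hbp : b ≠ p := fun h => by rw [h] at hb; omega
  have hbq : b ≠ q := fun h => by rw [h] at hb; omega
  have ta : gl4_tau u v u0 v0 a b p q a = some u := by
    unfold gl4_tau
    rw [if_pos rfl]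
  have tb : gl4_tau u v u0 v0 a b p q b = some v := by
    unfold gl4_tau
    rw [if_neg hab'.symm, if_pos rfl]
  have tp : gl4_tau u v u0 v0 a b p q p = some u0 := by
    unfold gl4_tau
    rw [if_neg hap.symm, if_neg hbp.symm, if_pos rfl]
  have tq : gl4_tau u v u0 v0 a b p q q = some v0 := by
    unfold gl4_tau
    rw [if_neg haq.symm, if_neg hbq.symm, if_neg hpq'.symm, if_pos rfl]
  obtain ⟨V', hV', G', i, j, hi, hj, g3, g4, g5, g6, g7, g8⟩ :=
    hGLUE V W G S (gl4_tau u v u0 v0 a b p q) (by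
      intro w w' x hw hw'
      rcases gl4_tau_some hw with ⟨hw1, hx1⟩ | ⟨hw1, hx1⟩ | ⟨hw1, hx1⟩ | ⟨hw1, hx1⟩ <;>
      rcases gl4_tau_some hw' with ⟨hw2, hx2⟩ | ⟨hw2, hx2⟩ | ⟨hw2, hx2⟩ | ⟨hw2, hx2⟩
      · exact hw1.trans hw2.symm
      · exact absurd (hx1.symm.trans hx2) huv.ne
      · exact absurd (hx1.symm.trans hx2) h1
      · exact absurd (hx1.symm.trans hx2) h2
      · exact absurd (hx2.symm.trans hx1) huv.ne
      · exact hw1.trans hw2.symm
      · exact absurd (hx1.symm.trans hx2) h3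
      · exact absurd (hx1.symm.trans hx2) h4
      · exact absurd (hx2.symm.trans hx1) h1
      · exact absurd (hx2.symm.trans hx1) h3
      · exact hw1.trans hw2.symm
      · exact absurd (hx1.symm.trans hx2) huv0.ne
      · exact absurd (hx2.symm.trans hx1) h2
      · exact absurd (hx2.symm.trans hx1) h4
      · exact absurd (hx2.symm.trans hx1) huv0.ne
      · exact hw1.trans hw2.symm) (by
      intro w w' x x' hw hw' hadj
      rcases hsw w w' x x' hw hw' hadj with ⟨_, e1, _, e2⟩ | ⟨_, e1, _, e2⟩ | ⟨_, e1, _, e2⟩ |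
        ⟨_, e1, _, e2⟩
      · rw [e1, e2]; exact huv
      · rw [e1, e2]; exact huv.symm
      · rw [e1, e2]; exact huv0
      · rw [e1, e2]; exact huv0.symm)
  have ja : j a = i u := (g3 a u).2 ta
  have jb : j b = i v := (g3 b v).2 tb
  have jp : j p = i u0 := (g3 p u0).2 tp
  have jq : j q = i v0 := (g3 q v0).2 tq
  have hloc : ∀ f : Fin m → V', Copy H G' f →
      (∃ g : Fin m → V, Copy H G g ∧ ∀ z, f z = i (g z)) ∨
      (∃ g : Fin m → W, Copy H S g ∧ ∀ z, f z = j (g z)) := by
    intro f hf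
    obtain ⟨h, hh1, hh2, hh3⟩ := gl4_level hj φ f
    by_cases hL : ∃ x w, f x = j w ∧ gl4_tau u v u0 v0 a b p q w = none ∧ φ w < h
    · right
      have hall := gl4_sep hC hf.1 (i u) (i v)
        (fun x => ∃ w, f x = j w ∧ gl4_tau u v u0 v0 a b p q w = none ∧ φ w < h) hL
        (by
          rintro x ⟨w, hw1, hw2, hw3⟩
          constructor
          · intro hc
            rw [hw1, g3, hw2] at hc
            exact absurd hc (by simp)
          · intro hc
            rw [hw1, g3, hw2] at hc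
            exact absurd hc (by simp))
        (by
          rintro x y ⟨w, hw1, hw2, hw3⟩ hxy hy1 hy2
          have hadj := hf.2 x y hxy
          rw [hw1] at hadj
          obtain ⟨w', hw', hs⟩ := g7 w (f y) hw2 hadj
          have hl := hφ _ _ hs.symm
          have hne := hh3 y w' hw'
          refine ⟨w', hw', ?_, by omega⟩
          by_contra hcc
          obtain ⟨x', hx'⟩ := Option.ne_none_iff_exists'.1 hcc
          rcases gl4_tau_some hx' with ⟨e1, _⟩ | ⟨e1, _⟩ | ⟨e1, _⟩ | ⟨e1, _⟩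
          · exact hy1 (by rw [hw', e1, ja])
          · exact hy2 (by rw [hw', e1, jb])
          · rw [e1] at hl; omega
          · rw [e1] at hl; omega)
      have hex : ∀ y, ∃ w, f y = j w ∧
          (gl4_tau u v u0 v0 a b p q w = none ∨ w = a ∨ w = b) := by
        intro y
        rcases hall y with hy | hy | ⟨w, hw1, hw2, _⟩
        · exact ⟨a, by rw [hy, ja], Or.inr (Or.inl rfl)⟩
        · exact ⟨b, by rw [hy, jb], Or.inr (Or.inr rfl)⟩
        · exact ⟨w, hw1, Or.inl hw2⟩
      choose g hg1 hg2 using hex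
      exact ⟨g, gl4_copy hj g7 hf hab g hg1 hg2, hg1⟩
    by_cases hR : ∃ x w, f x = j w ∧ gl4_tau u v u0 v0 a b p q w = none ∧ h < φ w
    · right
      have hall := gl4_sep hC hf.1 (i u0) (i v0)
        (fun x => ∃ w, f x = j w ∧ gl4_tau u v u0 v0 a b p q w = none ∧ h < φ w) hR
        (by
          rintro x ⟨w, hw1, hw2, hw3⟩
          constructor
          · intro hc
            rw [hw1, g3, hw2] at hc
            exact absurd hc (by simp)
          · intro hc
            rw [hw1, g3, hw2] at hc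
            exact absurd hc (by simp))
        (by
          rintro x y ⟨w, hw1, hw2, hw3⟩ hxy hy1 hy2
          have hadj := hf.2 x y hxy
          rw [hw1] at hadj
          obtain ⟨w', hw', hs⟩ := g7 w (f y) hw2 hadj
          have hl := hφ _ _ hs
          have hne := hh3 y w' hw'
          refine ⟨w', hw', ?_, by omega⟩
          by_contra hcc
          obtain ⟨x', hx'⟩ := Option.ne_none_iff_exists'.1 hcc
          rcases gl4_tau_some hx' with ⟨e1, _⟩ | ⟨e1, _⟩ | ⟨e1, _⟩ | ⟨e1, _⟩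
          · rw [e1] at hl; omega
          · rw [e1] at hl; omega
          · exact hy1 (by rw [hw', e1, jp])
          · exact hy2 (by rw [hw', e1, jq]))
      have hex : ∀ y, ∃ w, f y = j w ∧
          (gl4_tau u v u0 v0 a b p q w = none ∨ w = p ∨ w = q) := by
        intro y
        rcases hall y with hy | hy | ⟨w, hw1, hw2, _⟩
        · exact ⟨p, by rw [hy, jp], Or.inr (Or.inl rfl)⟩
        · exact ⟨q, by rw [hy, jq], Or.inr (Or.inr rfl)⟩
        · exact ⟨w, hw1, Or.inl hw2⟩
      choose g hg1 hg2 using hex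
      exact ⟨g, gl4_copy hj g7 hf hpq g hg1 hg2, hg1⟩
    left
    have hex : ∀ y, ∃ x, f y = i x := by
      intro y
      rcases g4 (f y) with hy | ⟨w, hw1, hw2⟩
      · exact hy
      · exfalso
        have hne := hh3 y w hw2
        rcases lt_or_gt_of_ne hne with hlt | hgt
        · exact hL ⟨y, w, hw2, hw1, hlt⟩
        · exact hR ⟨y, w, hw2, hw1, hgt⟩
    choose g hg using hex
    refine ⟨g, ⟨fun x y hxy => hf.1 (by rw [hg, hg, hxy]), fun x y hxy => ?_⟩, hg⟩
    have hadj := hf.2 x y hxy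
    rwa [hg, hg, g5] at hadj
  refine ⟨V', hV', G', i, j, hi, hj, ja, jb, jp, jq, g5, ?_, ?_⟩
  · intro e
    constructor
    · intro he
      exact ⟨gl4_pb hi (fun x y h => (g5 x y).2 h) he, gl4_pb hj g6 he⟩
    · rintro ⟨he1, he2⟩ c f hf
      rcases hloc f hf with ⟨g, hg1, hg2⟩ | ⟨g, hg1, hg2⟩
      · obtain ⟨x, y, hxy, hne⟩ := he1 c g hg1
        refine ⟨x, y, hxy, ?_⟩
        rw [hg2, hg2]
        exact hne
      · obtain ⟨x, y, hxy, hne⟩ := he2 c g hg1
        refine ⟨x, y, hxy, ?_⟩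
        rw [hg2, hg2]
        exact hne
  · intro c d hcd1 hcd2
    apply g8 c d
    intro w w' x x' hw hw' hadj
    rcases hsw w w' x x' hw hw' hadj with ⟨e1, e2, e3, e4⟩ | ⟨e1, e2, e3, e4⟩ |
      ⟨e1, e2, e3, e4⟩ | ⟨e1, e2, e3, e4⟩
    · rw [e1, e2, e3, e4]; exact hcd1
    · rw [e1, e2, e3, e4, Sym2.eq_swap, hcd1, Sym2.eq_swap]
    · rw [e1, e2, e3, e4]; exact hcd2
    · rw [e1, e2, e3, e4, Sym2.eq_swap, hcd2, Sym2.eq_swap]

end Pool.Agent.Helper77.SND
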